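import Pool.Agent.H23.FC.Targets
import Pool.Agent.H75.FM.THL
import Pool.Agent.H83.FM.PSB

/-!
# PSBm: the decay of the function `Psm`
-/

set_option autoImplicit false

open MeasureTheory Set Filter
open Pool.Agent.H31.CN Pool.Agent.H89.FM Pool.Agent.H89.FC Pool.Agent.H23.FC
open scoped Real Topology

namespace Pool.Agent.H49.FC

theorem norm_an (x y : ℝ) (hy : 0 < y) (v : ℤ × ℤ) (hv : v ≠ 0) :
    ‖Pool.Agent.H89.FC.an (x : ℂ) (y : ℂ) v‖ = 1 := by
  unfold Pool.Agent.H89.FC.an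
  have hc : ((v.1 : ℂ) + v.2 * ((x : ℂ) + (y : ℂ) * Complex.I)) =
      (starRingEnd ℂ) ((v.1 : ℂ) + v.2 * ((x : ℂ) - (y : ℂ) * Complex.I)) := by
    simp
  have h0 : ((v.1 : ℂ) + v.2 * ((x : ℂ) - (y : ℂ) * Complex.I)) ≠ 0 := by
    intro h
    have him := congrArg Complex.im h
    have hre := congrArg Complex.re h
    simp at him hre
    rcases him with h2 | h2
    · rw [h2] at hre
      simp at hre
      exact hv (Prod.ext hre h2)
    · exact hy.ne' h2
  rw [hc, norm_div, RCLike.norm_conj, div_self]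
  exact norm_ne_zero_iff.mpr h0

theorem phm_bound (m : ℕ) (K : ℝ) (hK : 0 < K) (w : ℂ) (hw : ‖w‖ ≤ K * w.re) (r : ℝ)
    (hr : 0 ≤ r) :
    ‖phm m (w * (r : ℂ))‖ ≤ ((m : ℝ) + 1 + 2 * K) ^ (m + 2) * ((m + 2).factorial * Real.exp 1) *
      Real.exp (-(π / K * (‖w‖ * r))) := by
  have hpi := Real.pi_pos
  have hpi1 : (1 : ℝ) ≤ 2 * π := by linarith [Real.pi_gt_three]
  unfold phm
  rw [norm_mul, norm_mul, Complex.norm_exp, norm_pow]
  set z := ‖w‖ * r with hz
  have hz0 : 0 ≤ z := mul_nonneg (norm_nonneg _) hr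
  have hwr : ‖w * (r : ℂ)‖ = z := by
    rw [norm_mul, Complex.norm_real, Real.norm_of_nonneg hr]
  have hm0 : (0 : ℝ) ≤ m := Nat.cast_nonneg m
  have h1 : ‖((m : ℂ) - 2 * π * (w * (r : ℂ))) ^ 2 + m - 4 * π * (w * (r : ℂ))‖ ≤
      ((m : ℝ) + 1 + 2 * π * z) ^ 2 := by
    have a1 : ‖(m : ℂ) - 2 * π * (w * (r : ℂ))‖ ≤ m + 2 * π * z := by
      refine le_trans (norm_sub_le _ _) ?_
      rw [norm_mul, norm_mul, hwr, Complex.norm_real, Real.norm_of_nonneg hpi.le]
      simp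
    have a2 : ‖4 * (π : ℂ) * (w * (r : ℂ))‖ = 4 * π * z := by
      rw [norm_mul, norm_mul, hwr, Complex.norm_real, Real.norm_of_nonneg hpi.le]
      simp
    have a3 : ‖((m : ℂ) - 2 * π * (w * (r : ℂ))) ^ 2‖ ≤ (m + 2 * π * z) ^ 2 := by
      rw [norm_pow]
      exact pow_le_pow_left₀ (norm_nonneg _) a1 2
    calc ‖((m : ℂ) - 2 * π * (w * (r : ℂ))) ^ 2 + m - 4 * π * (w * (r : ℂ))‖
        ≤ ‖((m : ℂ) - 2 * π * (w * (r : ℂ))) ^ 2‖ + ‖(m : ℂ)‖ + ‖4 * (π : ℂ) * (w * (r : ℂ))‖ :=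
          le_trans (norm_sub_le _ _) (add_le_add (norm_add_le _ _) le_rfl)
      _ ≤ (m + 2 * π * z) ^ 2 + m + 4 * π * z := by
          rw [a2]
          have : ‖(m : ℂ)‖ = m := by simp
          rw [this]
          linarith
      _ ≤ ((m : ℝ) + 1 + 2 * π * z) ^ 2 := by nlinarith
  have h2 : (-(2 * (π : ℂ) * (w * (r : ℂ)))).re = -(2 * π * (w.re * r)) := by
    simp [Complex.mul_re, Complex.mul_im]
  rw [h2, hwr]
  have h3 : Real.exp (-(2 * π * (w.re * r))) ≤ Real.exp (-(2 * (π / K * z))) := by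
    apply Real.exp_le_exp.mpr
    have h4 : z ≤ K * (w.re * r) := by
      calc z = ‖w‖ * r := rfl
        _ ≤ K * w.re * r := mul_le_mul_of_nonneg_right hw hr
        _ = K * (w.re * r) := by ring
    have h5 : π / K * z ≤ π * (w.re * r) := by
      rw [div_mul_eq_mul_div, div_le_iff₀ hK]
      nlinarith
    linarith
  set t := π / K * z with ht
  have ht0 : 0 ≤ t := by positivity
  have hzt : π * z = K * t := by
    rw [ht]
    field_simp
  have h4 : z ≤ (m : ℝ) + 1 + 2 * π * z := by nlinarith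
  have h5 : ((m : ℝ) + 1 + 2 * π * z) ^ 2 * z ^ m ≤ ((m : ℝ) + 1 + 2 * π * z) ^ (m + 2) := by
    calc ((m : ℝ) + 1 + 2 * π * z) ^ 2 * z ^ m
        ≤ ((m : ℝ) + 1 + 2 * π * z) ^ 2 * ((m : ℝ) + 1 + 2 * π * z) ^ m :=
          mul_le_mul_of_nonneg_left (pow_le_pow_left₀ hz0 h4 m) (by positivity)
      _ = ((m : ℝ) + 1 + 2 * π * z) ^ (m + 2) := by ring
  have h6 : (m : ℝ) + 1 + 2 * π * z ≤ ((m : ℝ) + 1 + 2 * K) * (1 + t) := by
    have : 2 * π * z = 2 * K * t := by linarith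
    rw [this]
    nlinarith [mul_nonneg hm0 ht0, mul_nonneg hK.le ht0]
  have h7 : (1 + t) ^ (m + 2) ≤ (m + 2).factorial * Real.exp 1 * Real.exp t := by
    have := Real.pow_div_factorial_le_exp (1 + t) (by linarith) (m + 2)
    rw [div_le_iff₀ (by positivity), Real.exp_add] at this
    linarith
  have h8 : ((m : ℝ) + 1 + 2 * π * z) ^ (m + 2) ≤
      ((m : ℝ) + 1 + 2 * K) ^ (m + 2) * ((m + 2).factorial * Real.exp 1) * Real.exp t := by
    calc ((m : ℝ) + 1 + 2 * π * z) ^ (m + 2)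
        ≤ (((m : ℝ) + 1 + 2 * K) * (1 + t)) ^ (m + 2) :=
          pow_le_pow_left₀ (by positivity) h6 _
      _ = ((m : ℝ) + 1 + 2 * K) ^ (m + 2) * (1 + t) ^ (m + 2) := mul_pow _ _ _
      _ ≤ ((m : ℝ) + 1 + 2 * K) ^ (m + 2) * ((m + 2).factorial * Real.exp 1 * Real.exp t) :=
          mul_le_mul_of_nonneg_left h7 (by positivity)
      _ = _ := by ring
  calc ‖((m : ℂ) - 2 * π * (w * (r : ℂ))) ^ 2 + m - 4 * π * (w * (r : ℂ))‖ * z ^ m *
        Real.exp (-(2 * π * (w.re * r)))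
      ≤ (((m : ℝ) + 1 + 2 * K) ^ (m + 2) * ((m + 2).factorial * Real.exp 1) * Real.exp t) *
        Real.exp (-(2 * t)) := by
        apply mul_le_mul _ h3 (Real.exp_pos _).le (by positivity)
        exact le_trans (mul_le_mul_of_nonneg_right h1 (by positivity)) (le_trans h5 h8)
    _ = _ := by
        rw [mul_assoc, ← Real.exp_add]
        congr 2
        ring

theorem pf_PSBm (_hPSB : T_PSB) : T_PSBm := by
  intro m n L x y K hn hL hy hK
  have hpi := Real.pi_pos
  have hn0 : (0 : ℝ) < n := by exact_mod_cast hn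
  set c0 := min (1 / (2 * y)) (y / 2) / n with hc0
  have hc0p : 0 < c0 := div_pos (lt_min (by positivity) (by positivity)) hn0
  set G : ℤ × ℤ → ℝ := fun v => Real.exp (-(2 * π * (1 / (4 * K)) * (qz x y v / n))) with hG
  have hGs : Summable G := Pool.Agent.H75.FM.summ_all x y (1 / (4 * K)) n hn hy (by positivity)
  have hG0 : ∀ v, 0 ≤ G v := fun v => (Real.exp_pos _).le
  set A : ℝ := ((m.natAbs : ℝ) + 1 + 2 * K) ^ (m.natAbs + 2) *
    ((m.natAbs + 2).factorial * Real.exp 1) with hA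
  have hA0 : 0 ≤ A := by positivity
  refine ⟨A * ∑' v, G v, π / (2 * K) * c0,
    mul_nonneg hA0 (tsum_nonneg hG0), by positivity, ?_⟩
  intro w hw1 hwK
  have hb : ∀ v, ‖psm m n L x y w v‖ ≤
      A * Real.exp (-(π / (2 * K) * c0 * ‖w‖)) * G v := by
    intro v
    unfold psm
    split_ifs with h
    · have hr0 : 0 ≤ qz x y v / n :=
        div_nonneg (Pool.Agent.H83.FM.qz_nonneg x y hy v) hn0.le
      have hrc : c0 ≤ qz x y v / n := by
        rw [hc0]
        exact div_le_div_of_nonneg_right (Pool.Agent.H83.FM.qz_lower x y hy v h.2) hn0.le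
      rw [norm_mul, norm_zpow, norm_an x y hy v h.2, one_zpow, one_mul]
      refine le_trans (phm_bound m.natAbs K hK w hwK _ hr0) ?_
      rw [← hA, mul_assoc A]
      apply mul_le_mul_of_nonneg_left _ hA0
      simp only [hG]
      rw [← Real.exp_add]
      apply Real.exp_le_exp.mpr
      set r := qz x y v / n with hr
      have e1 : π / K * (‖w‖ * r) = π / (2 * K) * (r * ‖w‖) + π / (2 * K) * (‖w‖ * r) := by
        field_simp
        ring
      have e2 : 2 * π * (1 / (4 * K)) * r = π / (2 * K) * r := by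
        field_simp
        ring
      rw [e1, e2]
      have hq : 0 < π / (2 * K) := by positivity
      have k1 : π / (2 * K) * c0 * ‖w‖ ≤ π / (2 * K) * (r * ‖w‖) := by
        rw [mul_assoc]
        apply mul_le_mul_of_nonneg_left _ hq.le
        exact mul_le_mul_of_nonneg_right hrc (norm_nonneg _)
      have k2 : π / (2 * K) * r ≤ π / (2 * K) * (‖w‖ * r) := by
        apply mul_le_mul_of_nonneg_left _ hq.le
        nlinarith
      linarith
    · rw [norm_zero]
      exact mul_nonneg (mul_nonneg hA0 (Real.exp_pos _).le) (hG0 v)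
  have hs : Summable (fun v => ‖psm m n L x y w v‖) :=
    Summable.of_nonneg_of_le (fun v => norm_nonneg _) hb (hGs.mul_left _)
  refine ⟨hs, ?_⟩
  calc ∑' v : ℤ × ℤ, ‖psm m n L x y w v‖
      ≤ ∑' v, A * Real.exp (-(π / (2 * K) * c0 * ‖w‖)) * G v :=
        hs.tsum_le_tsum hb (hGs.mul_left _)
    _ = A * (∑' v, G v) * Real.exp (-(π / (2 * K) * c0 * ‖w‖)) := by
        rw [tsum_mul_left]
        ring

end Pool.Agent.H49.FC
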